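import Pool.Agent.Q45.ML.Units

/-!
# The rank-one abelian Stark conjecture in Tate's form, archimedean split place, as a limit relation

Let `H/K` be a finite abelian extension of number fields, `G ≅ Gal(H/K)`, `S ∋ 𝔭` as in the problem with `|S| ≥ 3` and
`𝔭` archimedean and totally split, given by an embedding `τ` of `H` (`|x|_𝔓 = |τ(x)|^e`, `e = 1` or `2`); `Sf` is the
finite part of `S`, `φ v ∈ G` the Artin symbol of `v ∉ Sf`, `L χ` the `L`-function of `χ` without the factors in `Sf`;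
all `L χ` vanish at `0`. `ζ_S(g, s) = |G|⁻¹ ∑_χ χ(g)⁻¹ L(s, χ)` are the partial zeta functions (real for real `s`). For
`γ > π/2` let

`S_χ(T) = ∑_{v ∉ Sf} ∑_{k ≥ 1} (χ(φ v)^k/k) e^{iγ k log N(v)/T}/Γ(1 + k log N(v)/T)`,
`Z_g(T) = |G|⁻¹ ∑_χ χ(g)⁻¹ T e^{S_χ(T)} e^{-Λ}`.

Since `|T| ≥ 2` and `𝔭` is archimedean, `U^T_{S,H}` is the group of the units `ε` of `H` with `|ε| = 1` at all embeddings
not above `𝔭`. The conjecture for `H/K, S, 𝔭` holds if and only if the vectors `(exp(-W Re Z_g(T)))_g` approach, along one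
sequence `T → ∞`, the locally finite set of the vectors `(|g(ε)|_𝔓)_g`, `ε ∈ U^T`, `H(ε^{1/W})/K` abelian.
-/

set_option autoImplicit false

namespace Pool.Agent.Results.MP_ca56d1_nt.ArchimedeanSplitPlace

open Filter Topology Asymptotics NumberField IsDedekindDomain Pool.Agent.Q45.ML

/-- for every `y` with `y ^ W = x` the field `H(y)` is abelian over `K` -/
def AbelianRoot (K : Type) {H : Type} [Field K] [Field H] [Algebra K H] (W : ℕ) (x : H) : Prop :=
  ∀ y : AlgebraicClosure H, y ^ W = algebraMap H (AlgebraicClosure H) x →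
    IsAbelianGalois K (IntermediateField.adjoin H {y})

/-- `ε` is a unit of the ring of integers of `H`, of absolute value one at the embeddings which do not lie above the
place of `K` defined by `τ`, and `H(ε^{1/W})` is abelian over `K` -/
def IsAdmissible (K : Type) {H : Type} [Field K] [Field H] [Algebra K H] (τ : H →+* ℂ) (W : ℕ) (ε : H) : Prop :=
  ε ≠ 0 ∧ IsIntegral ℤ ε ∧ IsIntegral ℤ ε⁻¹ ∧
    (∀ g : H →+* ℂ, g.comp (algebraMap K H) ≠ τ.comp (algebraMap K H) →
      g.comp (algebraMap K H) ≠ ((starRingEnd ℂ).comp τ).comp (algebraMap K H) → ‖g ε‖ = 1) ∧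
    AbelianRoot K W ε

/-- the vectors `(|g(ε)|_𝔓)_g`, `|x|_𝔓 = |τ(x)|^e`, `ε` admissible -/
def unitVectors {K H : Type} [Field K] [Field H] [Algebra K H] {G : Type} [CommGroup G]
    (Art : G ≃* (H ≃ₐ[K] H)) (τ : H →+* ℂ) (W e : ℕ) : Set (G → ℝ) :=
  {x | ∃ ε : H, IsAdmissible K τ W ε ∧ ∀ g, ‖τ (Art g ε)‖ ^ e = x g}

theorem trivial_admissible {K H : Type} [Field K] [NumberField K] [Field H] [NumberField H]
    [Algebra K H] [IsGalois K H] {G : Type} [CommGroup G] (Art : G ≃* (H ≃ₐ[K] H)) (τ : H →+* ℂ)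
    {W : ℕ} (hW : 0 < W) {ζ : H} (hζ : IsPrimitiveRoot ζ W) : IsAdmissible K τ W (1 : H) := by
  have hab : IsAbelianGalois K H :=
    { is_comm := ⟨fun a b => by
        obtain ⟨x, rfl⟩ := Art.surjective a
        obtain ⟨y, rfl⟩ := Art.surjective b
        rw [← map_mul, ← map_mul, mul_comm]⟩ }
  refine ⟨one_ne_zero, isIntegral_one, by rw [inv_one]; exact isIntegral_one,
    fun _ _ _ => by rw [map_one, norm_one], ?_⟩
  intro y hy
  rw [map_one] at hy
  have hζ' : IsPrimitiveRoot (algebraMap H (AlgebraicClosure H) ζ) W :=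
    hζ.map_of_injective (algebraMap H (AlgebraicClosure H)).injective
  have hbot : IntermediateField.adjoin H {y} = ⊥ := by
    rw [IntermediateField.adjoin_simple_eq_bot_iff]
    have : NeZero W := ⟨hW.ne'⟩
    obtain ⟨i, -, rfl⟩ := hζ'.eq_pow_of_pow_eq_one hy
    exact pow_mem (IntermediateField.mem_bot.2 ⟨ζ, rfl⟩) i
  rw [hbot]
  exact IsAbelianGalois.of_algHom
    (((IntermediateField.botEquiv H (AlgebraicClosure H)).toAlgHom).restrictScalars K)

theorem finite_balls {K H : Type} [Field K] [NumberField K] [Field H] [NumberField H] [Algebra K H]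
    [IsGalois K H] {G : Type} [CommGroup G] [Fintype G] (Art : G ≃* (H ≃ₐ[K] H)) (τ : H →+* ℂ)
    (W : ℕ) {e : ℕ} (he : 1 ≤ e) (r : ℝ) :
    (unitVectors Art τ W e ∩ Metric.closedBall 0 r).Finite := by
  refine Set.Finite.subset ((Embeddings.finite_of_norm_le H ℂ (max r 1)).image
    (fun y : H => fun g : G => ‖τ (Art g y)‖ ^ e)) ?_
  rintro x ⟨⟨ε, ⟨h0, h1, h2, h3, h4⟩, hx⟩, hxr⟩
  have hle : ∀ B, ‖τ (Art B ε)‖ ≤ max r 1 := fun B => by
    rw [mem_closedBall_zero_iff] at hxr
    have h5 := (norm_le_pi_norm x B).trans hxr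
    rw [← hx B, norm_pow, norm_norm] at h5
    by_cases h6 : ‖τ (Art B ε)‖ ≤ 1
    · exact h6.trans (le_max_right _ _)
    · push Not at h6
      have h7 : ‖τ (Art B ε)‖ ≤ ‖τ (Art B ε)‖ ^ e := le_self_pow₀ h6.le (by omega)
      exact (h7.trans h5).trans (le_max_left _ _)
  refine ⟨ε, ⟨h1, fun g => ?_⟩, funext hx⟩
  by_cases hg : g.comp (algebraMap K H) = τ.comp (algebraMap K H)
  · obtain ⟨σ, hσ⟩ := exists_aut hg
    obtain ⟨B, rfl⟩ := Art.surjective σ
    rw [hσ]
    exact hle B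
  · by_cases hg' : g.comp (algebraMap K H) = ((starRingEnd ℂ).comp τ).comp (algebraMap K H)
    · obtain ⟨σ, hσ⟩ := exists_aut hg'
      obtain ⟨B, rfl⟩ := Art.surjective σ
      rw [hσ]
      have : ‖((starRingEnd ℂ).comp τ) (Art B ε)‖ = ‖τ (Art B ε)‖ := by
        rw [RingHom.comp_apply, RCLike.norm_conj]
      rw [this]
      exact hle B
    · rw [h3 g hg hg']
      exact le_max_right _ _

theorem result (K H : Type) [Field K] [NumberField K] [Field H] [NumberField H] [Algebra K H]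
    [IsGalois K H] {G : Type} [CommGroup G] [Fintype G] [Fintype (G →* ℂˣ)]
    (Art : G ≃* (H ≃ₐ[K] H)) (τ : H →+* ℂ) {e : ℕ} (he : 1 ≤ e)
    {W : ℕ} (hW : 0 < W) {ζ : H} (hζ : IsPrimitiveRoot ζ W) (Sf : Finset (HeightOneSpectrum (𝓞 K)))
    (φ : HeightOneSpectrum (𝓞 K) → G) (L : (G →* ℂˣ) → ℂ → ℂ) (hL : IsFamily Sf φ L)
    {γ : ℝ} (hγ : Real.pi / 2 < γ) :
    (∀ g, (fun T : ℝ => partialSum Sf φ γ g T - deriv (partialZeta L g) 0) =O[atTop]
      (fun T : ℝ => 1 / T)) ∧
    List.TFAE [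
      ∃ ε : H, IsAdmissible K τ W ε ∧
        ∀ g, Real.log (‖τ (Art g ε)‖ ^ e) = -(W * (deriv (partialZeta L g) 0).re),
      Tendsto (fun T : ℝ => Metric.infDist (fun g => Real.exp (-(W * (partialSum Sf φ γ g T).re)))
        (unitVectors Art τ W e)) atTop (𝓝 0),
      ∃ t : ℕ → ℝ, Tendsto t atTop atTop ∧
        Tendsto (fun i => Metric.infDist
          (fun g => Real.exp (-(W * (partialSum Sf φ γ g (t i)).re)))
          (unitVectors Art τ W e)) atTop (𝓝 0)] := by
  have hrate := fun A => hL.partial_rate hγ A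
  have hlim : Tendsto (fun T : ℝ => fun g => Real.exp (-(W * (partialSum Sf φ γ g T).re))) atTop
      (𝓝 fun g => Real.exp (-(W * (deriv (partialZeta L g) 0).re))) := by
    refine tendsto_pi_nhds.2 fun A => ?_
    refine (Real.continuous_exp.tendsto _).comp ?_
    exact (((Complex.continuous_re.tendsto _).comp (tendsto_of_rate (hrate A))).const_mul _).neg
  have hne : (unitVectors Art τ W e).Nonempty :=
    ⟨_, 1, trivial_admissible Art τ hW hζ, fun _ => rfl⟩
  have h1 := closed_tfae (closed_of_finite_balls (finite_balls Art τ W he)) hne hlim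
  have h2 : ((fun g => Real.exp (-(W * (deriv (partialZeta L g) 0).re))) ∈ unitVectors Art τ W e) ↔
      ∃ ε : H, IsAdmissible K τ W ε ∧
        ∀ g, Real.log (‖τ (Art g ε)‖ ^ e) = -(W * (deriv (partialZeta L g) 0).re) := by
    refine exists_congr fun ε => and_congr_right fun hε => forall_congr' fun g => ?_
    have hpos : 0 < ‖τ (Art g ε)‖ ^ e := by
      have h3 : τ (Art g ε) ≠ 0 := by
        rw [Ne, map_eq_zero, map_eq_zero]
        exact hε.1
      have := norm_pos_iff.2 h3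
      positivity
    constructor
    · intro h
      rw [h, Real.log_exp]
    · intro h
      show ‖τ (Art g ε)‖ ^ e = Real.exp (-(W * (deriv (partialZeta L g) 0).re))
      rw [← h, Real.exp_log hpos]
  rw [h2] at h1
  exact ⟨hrate, h1⟩

end Pool.Agent.Results.MP_ca56d1_nt.ArchimedeanSplitPlace
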